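import Pool.Agent.H950.FK.Cl

set_option autoImplicit false

/-!
# FK-T2: Holley's condition gives a monotone coupling (helper974)
-/

namespace Pool.Agent.H950.FKp

open Finset

/-- a coupling supported on the pairs `A ⊆ B` -/
def Coupl {α : Type} (S : Finset α) (f g : Finset α → ℝ)
    (κ : Finset α → Finset α → ℝ) : Prop :=
  (∀ A B, 0 ≤ κ A B) ∧ (∀ A ⊆ S, ∑ B ∈ S.powerset, κ A B = f A) ∧
    (∀ B ⊆ S, ∑ A ∈ S.powerset, κ A B = g B) ∧ ∀ A ⊆ S, ∀ B ⊆ S, κ A B ≠ 0 → A ⊆ B

theorem coupling {α : Type} [DecidableEq α] (S : Finset α) : ∀ (f g : Finset α → ℝ),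
    (∀ A, 0 ≤ f A) → (∀ A, 0 ≤ g A) → ∑ A ∈ S.powerset, f A = ∑ A ∈ S.powerset, g A →
    (∀ A ⊆ S, ∀ B ⊆ S, f A * g B ≤ f (A ∩ B) * g (A ∪ B)) →
    ∃ κ : Finset α → Finset α → ℝ, Coupl S f g κ := by
  induction S using Finset.induction_on with
  | empty =>
    intro f g hf hg hfg _
    refine ⟨fun _ _ => f ∅, fun _ _ => hf _, ?_, ?_, ?_⟩
    · intro A hA
      rw [Finset.subset_empty.mp hA]
      simp
    · intro B hB
      rw [Finset.subset_empty.mp hB]
      simpa using hfg
    · intro A hA B _ _
      rw [Finset.subset_empty.mp hA]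
      exact Finset.empty_subset B
  | insert e S he ih =>
    intro f g hf hg hfg H
    set f1 : Finset α → ℝ := fun A => f (insert e A) with hf1
    set g1 : Finset α → ℝ := fun A => g (insert e A) with hg1
    set a0 := ∑ A ∈ S.powerset, f A with ha0
    set a1 := ∑ A ∈ S.powerset, f1 A with ha1
    set b0 := ∑ A ∈ S.powerset, g A with hb0
    set b1 := ∑ A ∈ S.powerset, g1 A with hb1
    rw [Finset.sum_powerset_insert he, Finset.sum_powerset_insert he] at hfg
    change a0 + a1 = b0 + b1 at hfg
    have ha0n : 0 ≤ a0 := sum_nonneg fun A _ => hf A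
    have ha1n : 0 ≤ a1 := sum_nonneg fun A _ => hf _
    have hb0n : 0 ≤ b0 := sum_nonneg fun A _ => hg A
    have hb1n : 0 ≤ b1 := sum_nonneg fun A _ => hg _
    have hne : ∀ A ⊆ S, e ∉ A := fun A hA h => he (hA h)
    -- the Holley conditions
    have H00 : ∀ A ⊆ S, ∀ B ⊆ S, f A * g B ≤ f (A ∩ B) * g (A ∪ B) := fun A hA B hB =>
      H A (hA.trans (subset_insert e S)) B (hB.trans (subset_insert e S))
    have H01 : ∀ A ⊆ S, ∀ B ⊆ S, f A * g1 B ≤ f (A ∩ B) * g1 (A ∪ B) := fun A hA B hB => by
      have h1 := H A (hA.trans (subset_insert e S)) (insert e B) (insert_subset_insert e hB)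
      rw [inter_insert_of_notMem (hne A hA), union_insert] at h1
      exact h1
    have H11 : ∀ A ⊆ S, ∀ B ⊆ S, f1 A * g1 B ≤ f1 (A ∩ B) * g1 (A ∪ B) := fun A hA B hB => by
      have h1 := H (insert e A) (insert_subset_insert e hA) (insert e B) (insert_subset_insert e hB)
      rw [← insert_inter_distrib, ← insert_union_distrib] at h1
      exact h1
    have H10 : ∀ A ⊆ S, ∀ B ⊆ S, f1 A * g B ≤ f (A ∩ B) * g1 (A ∪ B) := fun A hA B hB => by
      have h1 := H (insert e A) (insert_subset_insert e hA) B (hB.trans (subset_insert e S))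
      rw [insert_inter_of_notMem (hne B hB), insert_union] at h1
      exact h1
    have h4 : a1 * b0 ≤ a0 * b1 := by
      have h5 := Finset.four_functions_theorem S (f₁ := f1) (f₂ := g) (f₃ := f) (f₄ := g1)
        (fun A => hf _) (fun A => hg _) (fun A => hf _) (fun A => hg _)
        (fun A hA B hB => H10 A hA B hB) (𝒜 := S.powerset) (ℬ := S.powerset)
        (Finset.Subset.refl _) (Finset.Subset.refl _)
      rwa [Finset.powerset_infs_powerset_self, Finset.powerset_sups_powerset_self] at h5
    have hab : a1 ≤ b1 := by
      by_contra hcon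
      push Not at hcon
      have h6 : b0 = a0 + a1 - b1 := by linarith
      rw [h6] at h4
      -- a1 (a0 + a1 - b1) ≤ a0 b1
      nlinarith
    have hba : b0 ≤ a0 := by linarith
    -- the three couplings
    have hz0 : a0 = 0 → ∀ A ⊆ S, f A = 0 := fun h A hA =>
      (Finset.sum_eq_zero_iff_of_nonneg (fun B _ => hf B)).mp h A (mem_powerset.mpr hA)
    have hz1 : b1 = 0 → ∀ A ⊆ S, g1 A = 0 := fun h A hA =>
      (Finset.sum_eq_zero_iff_of_nonneg (fun B _ => hg _)).mp h A (mem_powerset.mpr hA)
    obtain ⟨κ00, k00⟩ := ih (fun A => b0 / a0 * f A) g (fun A => by have := hf A; positivity) hg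
      (by
        rw [← mul_sum]
        change b0 / a0 * a0 = b0
        by_cases h : a0 = 0
        · rw [h] at hba
          have : b0 = 0 := le_antisymm hba hb0n
          rw [this, h]; simp
        · exact div_mul_cancel₀ b0 h)
      (fun A hA B hB => by
        have h1 := H00 A hA B hB
        have h2 : 0 ≤ b0 / a0 := by positivity
        calc b0 / a0 * f A * g B = b0 / a0 * (f A * g B) := by ring
          _ ≤ b0 / a0 * (f (A ∩ B) * g (A ∪ B)) := mul_le_mul_of_nonneg_left h1 h2
          _ = b0 / a0 * f (A ∩ B) * g (A ∪ B) := by ring)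
    have hd : 0 ≤ b1 - a1 := by linarith
    obtain ⟨κ01, k01⟩ := ih (fun A => (b1 - a1) / a0 * f A) (fun A => (b1 - a1) / b1 * g1 A)
      (fun A => by have := hf A; positivity)
      (fun A => by have : 0 ≤ g1 A := hg _; positivity)
      (by
        rw [← mul_sum, ← mul_sum]
        change (b1 - a1) / a0 * a0 = (b1 - a1) / b1 * b1
        have e1 : (b1 - a1) / a0 * a0 = b1 - a1 := by
          by_cases h : a0 = 0
          · have h7 : b0 = 0 := le_antisymm (by rw [h] at hba; exact hba) hb0n
            have h8 : b1 - a1 = 0 := by linarith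
            rw [h8]; simp
          · exact div_mul_cancel₀ _ h
        have e2 : (b1 - a1) / b1 * b1 = b1 - a1 := by
          by_cases h : b1 = 0
          · have h7 : a1 = 0 := le_antisymm (by rw [h] at hab; exact hab) ha1n
            rw [h, h7]; simp
          · exact div_mul_cancel₀ _ h
        rw [e1, e2])
      (fun A hA B hB => by
        have h1 := H01 A hA B hB
        have h2 : 0 ≤ (b1 - a1) / a0 * ((b1 - a1) / b1) := by positivity
        calc (b1 - a1) / a0 * f A * ((b1 - a1) / b1 * g1 B)
            = (b1 - a1) / a0 * ((b1 - a1) / b1) * (f A * g1 B) := by ring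
          _ ≤ (b1 - a1) / a0 * ((b1 - a1) / b1) * (f (A ∩ B) * g1 (A ∪ B)) :=
            mul_le_mul_of_nonneg_left h1 h2
          _ = (b1 - a1) / a0 * f (A ∩ B) * ((b1 - a1) / b1 * g1 (A ∪ B)) := by ring)
    obtain ⟨κ11, k11⟩ := ih f1 (fun A => a1 / b1 * g1 A) (fun A => hf _)
      (fun A => by have : 0 ≤ g1 A := hg _; positivity)
      (by
        rw [← mul_sum]
        change a1 = a1 / b1 * b1
        by_cases h : b1 = 0
        · have h7 : a1 = 0 := le_antisymm (by rw [h] at hab; exact hab) ha1n
          rw [h, h7]; simp
        · exact (div_mul_cancel₀ _ h).symm)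
      (fun A hA B hB => by
        have h1 := H11 A hA B hB
        have h2 : 0 ≤ a1 / b1 := by positivity
        calc f1 A * (a1 / b1 * g1 B) = a1 / b1 * (f1 A * g1 B) := by ring
          _ ≤ a1 / b1 * (f1 (A ∩ B) * g1 (A ∪ B)) := mul_le_mul_of_nonneg_left h1 h2
          _ = f1 (A ∩ B) * (a1 / b1 * g1 (A ∪ B)) := by ring)
    -- the coupling
    refine ⟨fun A B => if e ∈ A then (if e ∈ B then κ11 (A.erase e) (B.erase e) else 0)
      else (if e ∈ B then κ01 A (B.erase e) else κ00 A B), ?_, ?_, ?_, ?_⟩
    · intro A B
      dsimp only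
      split_ifs
      · exact k11.1 _ _
      · exact le_refl _
      · exact k01.1 _ _
      · exact k00.1 _ _
    · intro A hA
      rw [Finset.sum_powerset_insert he]
      by_cases heA : e ∈ A
      · have h1 : ∑ B ∈ S.powerset, (if e ∈ A then (if e ∈ B then κ11 (A.erase e) (B.erase e)
            else 0) else (if e ∈ B then κ01 A (B.erase e) else κ00 A B)) = 0 := by
          refine sum_eq_zero fun B hB => ?_
          rw [if_pos heA, if_neg (hne B (mem_powerset.mp hB))]
        have h2 : ∑ B ∈ S.powerset, (if e ∈ A then (if e ∈ insert e B then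
            κ11 (A.erase e) ((insert e B).erase e) else 0) else (if e ∈ insert e B then
            κ01 A ((insert e B).erase e) else κ00 A (insert e B))) =
            ∑ B ∈ S.powerset, κ11 (A.erase e) B := by
          refine sum_congr rfl fun B hB => ?_
          rw [if_pos heA, if_pos (mem_insert_self e B),
            erase_insert (hne B (mem_powerset.mp hB))]
        rw [h1, h2, zero_add]
        have hAe : A.erase e ⊆ S := by
          rw [← erase_insert he]; exact erase_subset_erase e hA
        rw [k11.2.1 _ hAe]
        change f (insert e (A.erase e)) = f A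
        rw [insert_erase heA]
      · have hAS : A ⊆ S := (subset_insert_iff_of_notMem heA).mp hA
        have h1 : ∑ B ∈ S.powerset, (if e ∈ A then (if e ∈ B then κ11 (A.erase e) (B.erase e)
            else 0) else (if e ∈ B then κ01 A (B.erase e) else κ00 A B)) =
            ∑ B ∈ S.powerset, κ00 A B := by
          refine sum_congr rfl fun B hB => ?_
          rw [if_neg heA, if_neg (hne B (mem_powerset.mp hB))]
        have h2 : ∑ B ∈ S.powerset, (if e ∈ A then (if e ∈ insert e B then
            κ11 (A.erase e) ((insert e B).erase e) else 0) else (if e ∈ insert e B then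
            κ01 A ((insert e B).erase e) else κ00 A (insert e B))) =
            ∑ B ∈ S.powerset, κ01 A B := by
          refine sum_congr rfl fun B hB => ?_
          rw [if_neg heA, if_pos (mem_insert_self e B),
            erase_insert (hne B (mem_powerset.mp hB))]
        rw [h1, h2, k00.2.1 A hAS, k01.2.1 A hAS]
        change b0 / a0 * f A + (b1 - a1) / a0 * f A = f A
        by_cases h : a0 = 0
        · rw [hz0 h A hAS]; simp
        · rw [← add_mul, ← add_div]
          have h9 : b0 + (b1 - a1) = a0 := by linarith
          rw [h9, div_self h, one_mul]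
    · intro B hB
      rw [Finset.sum_powerset_insert he]
      by_cases heB : e ∈ B
      · have h1 : ∑ A ∈ S.powerset, (if e ∈ A then (if e ∈ B then κ11 (A.erase e) (B.erase e)
            else 0) else (if e ∈ B then κ01 A (B.erase e) else κ00 A B)) =
            ∑ A ∈ S.powerset, κ01 A (B.erase e) := by
          refine sum_congr rfl fun A hA => ?_
          rw [if_neg (hne A (mem_powerset.mp hA)), if_pos heB]
        have h2 : ∑ A ∈ S.powerset, (if e ∈ insert e A then (if e ∈ B then
            κ11 ((insert e A).erase e) (B.erase e) else 0) else (if e ∈ B then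
            κ01 (insert e A) (B.erase e) else κ00 (insert e A) B)) =
            ∑ A ∈ S.powerset, κ11 A (B.erase e) := by
          refine sum_congr rfl fun A hA => ?_
          rw [if_pos (mem_insert_self e A), if_pos heB,
            erase_insert (hne A (mem_powerset.mp hA))]
        have hBe : B.erase e ⊆ S := by
          rw [← erase_insert he]; exact erase_subset_erase e hB
        rw [h1, h2, k01.2.2.1 _ hBe, k11.2.2.1 _ hBe]
        have e3 : g1 (B.erase e) = g B := by
          change g (insert e (B.erase e)) = g B
          rw [insert_erase heB]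
        change (b1 - a1) / b1 * g1 (B.erase e) + a1 / b1 * g1 (B.erase e) = g B
        by_cases h : b1 = 0
        · rw [← e3, hz1 h _ hBe]; simp
        · rw [← add_mul, ← add_div, e3]
          have h9 : b1 - a1 + a1 = b1 := by ring
          rw [h9, div_self h, one_mul]
      · have hBS : B ⊆ S := (subset_insert_iff_of_notMem heB).mp hB
        have h1 : ∑ A ∈ S.powerset, (if e ∈ A then (if e ∈ B then κ11 (A.erase e) (B.erase e)
            else 0) else (if e ∈ B then κ01 A (B.erase e) else κ00 A B)) =
            ∑ A ∈ S.powerset, κ00 A B := by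
          refine sum_congr rfl fun A hA => ?_
          rw [if_neg (hne A (mem_powerset.mp hA)), if_neg heB]
        have h2 : ∑ A ∈ S.powerset, (if e ∈ insert e A then (if e ∈ B then
            κ11 ((insert e A).erase e) (B.erase e) else 0) else (if e ∈ B then
            κ01 (insert e A) (B.erase e) else κ00 (insert e A) B)) = 0 := by
          refine sum_eq_zero fun A _ => ?_
          rw [if_pos (mem_insert_self e A), if_neg heB]
        rw [h1, h2, add_zero, k00.2.2.1 B hBS]
    · intro A hA B hB hk
      dsimp only at hk
      by_cases heA : e ∈ A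
      · by_cases heB : e ∈ B
        · rw [if_pos heA, if_pos heB] at hk
          have hAe : A.erase e ⊆ S := by
            rw [← erase_insert he]; exact erase_subset_erase e hA
          have hBe : B.erase e ⊆ S := by
            rw [← erase_insert he]; exact erase_subset_erase e hB
          have h1 := k11.2.2.2 _ hAe _ hBe hk
          rw [← insert_erase heA, ← insert_erase heB]
          exact insert_subset_insert e h1
        · rw [if_pos heA, if_neg heB] at hk
          exact absurd rfl hk
      · have hAS : A ⊆ S := (subset_insert_iff_of_notMem heA).mp hA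
        by_cases heB : e ∈ B
        · rw [if_neg heA, if_pos heB] at hk
          have hBe : B.erase e ⊆ S := by
            rw [← erase_insert he]; exact erase_subset_erase e hB
          exact (k01.2.2.2 _ hAS _ hBe hk).trans (erase_subset e B)
        · rw [if_neg heA, if_neg heB] at hk
          have hBS : B ⊆ S := (subset_insert_iff_of_notMem heB).mp hB
          exact k00.2.2.2 _ hAS _ hBS hk

theorem t_coup : Pool.Agent.H950.FK.S_coup := by
  intro S f g hf hg hf1 hg1 H
  exact coupling S f g hf hg (hf1.trans hg1.symm) H

end Pool.Agent.H950.FKp
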