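import Pool.Agent.H950.FK.St

set_option autoImplicit false

namespace Pool.Agent.H975.FK

open H974 Pool.Agent.H950.FK

/-! ### Basic facts -/

theorem exists_upper (f : ℤ → ℤ) (lo hi : ℤ) (h1 : ∀ y, y ≤ lo → f y = f lo)
    (h2 : ∀ y, hi ≤ y → f y = f hi) : ∃ r, ∀ y, f y ≤ r := by
  obtain ⟨M, hM⟩ := Finset.exists_le ((Finset.Icc (min lo hi) (max lo hi)).image f)
  refine ⟨M, fun y => ?_⟩
  rcases le_or_gt y lo with h | h
  · rw [h1 y h]
    exact hM _ (Finset.mem_image_of_mem _ (Finset.mem_Icc.2 ⟨min_le_left _ _, le_max_left _ _⟩))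
  · rcases le_or_gt hi y with h' | h'
    · rw [h2 y h']
      exact hM _ (Finset.mem_image_of_mem _ (Finset.mem_Icc.2 ⟨min_le_right _ _, le_max_right _ _⟩))
    · exact hM _ (Finset.mem_image_of_mem _ (Finset.mem_Icc.2
        ⟨(min_le_left _ _).trans h.le, h'.le.trans (le_max_right _ _)⟩))

theorem exists_lower (f : ℤ → ℤ) (lo hi : ℤ) (h1 : ∀ y, y ≤ lo → f y = f lo)
    (h2 : ∀ y, hi ≤ y → f y = f hi) : ∃ l, ∀ y, l ≤ f y := by
  obtain ⟨l, hl⟩ := exists_upper (fun y => - f y) lo hi (fun y h => by simp [h1 y h])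
    (fun y h => by simp [h2 y h])
  exact ⟨-l, fun y => by linarith [hl y]⟩

theorem w_lower (D : GD) : ∃ l, ∀ y, l ≤ D.w y :=
  exists_lower D.w D.lo D.hi (fun y h => (D.bot y h).1) (fun y h => (D.top y h).1)

theorem z_upper (D : GD) : ∃ r, ∀ y, D.z y ≤ r :=
  exists_upper D.z D.lo D.hi
    (fun y h => by rw [(D.bot y h).2, (D.bot D.lo le_rfl).2])
    (fun y h => by rw [(D.top y h).2, (D.top D.hi le_rfl).2])

theorem RE_ends {l r c d : ℤ} {e : Edg} (he : e ∈ RE l r c d) :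
    src e ∈ Finset.Icc l r ×ˢ Finset.Icc c d ∧ tgt e ∈ Finset.Icc l r ×ˢ Finset.Icc c d := by
  obtain ⟨x, y, b⟩ := e
  cases b
  · rw [mem_RE_false] at he
    simp only [src_mk, tgt_false, Finset.mem_product, Finset.mem_Icc]
    omega
  · rw [mem_RE_true] at he
    simp only [src_mk, tgt_true, Finset.mem_product, Finset.mem_Icc]
    omega

theorem E_sub (D : GD) {l r c d : ℤ} (hl : ∀ y, l ≤ D.w y) (hr : ∀ y, D.z y ≤ r) (hc : c ≤ D.lo)
    (hd : D.hi ≤ d) : D.E ⊆ RE l r c d := by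
  rintro ⟨x, y, b⟩ he
  rw [GD.mem_E] at he
  obtain ⟨h1, h2, h3⟩ := he
  have h4 : src (x, y, b) ∈ D.inn ∨ tgt (x, y, b) ∈ D.inn := by
    by_cases h : src (x, y, b) ∈ D.W
    · exact Or.inr ⟨h2, fun h' => h3 ⟨h, h'⟩⟩
    · exact Or.inl ⟨h1, h⟩
  have h5 : (D.lo < (src (x, y, b)).2 ∧ (src (x, y, b)).2 < D.hi ∧
      D.w (src (x, y, b)).2 < (src (x, y, b)).1) ∨ 
      (D.lo < (tgt (x, y, b)).2 ∧ (tgt (x, y, b)).2 < D.hi ∧
      D.w (tgt (x, y, b)).2 < (tgt (x, y, b)).1) := by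
    rcases h4 with h | h
    · left
      have h6 := D.row h.1 h.2
      exact ⟨h6.1, h6.2, not_le.1 h.2⟩
    · right
      have h6 := D.row h.1 h.2
      exact ⟨h6.1, h6.2, not_le.1 h.2⟩
  have h6 : (src (x, y, b)).1 < D.z (src (x, y, b)).2 := not_le.1 h1
  have h7 : (tgt (x, y, b)).1 < D.z (tgt (x, y, b)).2 := not_le.1 h2
  have a1 := hl (src (x, y, b)).2
  have a2 := hl (tgt (x, y, b)).2
  have a3 := hr (src (x, y, b)).2
  have a4 := hr (tgt (x, y, b)).2
  cases b
  · rw [mem_RE_false]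
    simp only [src_mk, tgt_false] at *
    omega
  · rw [mem_RE_true]
    simp only [src_mk, tgt_true] at *
    omega

theorem wt_pos (D : GD) {x q : ℝ} (hx : 0 < x) (hq : 0 < q) (F : Finset Edg) : 0 < D.wt x q F := by
  unfold GD.wt
  positivity

theorem Zpos (D : GD) {x q : ℝ} (hx : 0 < x) (hq : 0 < q) :
    0 < ∑ G ∈ D.E.powerset, D.wt x q G :=
  Finset.sum_pos (fun G _ => wt_pos D hx hq G) ⟨∅, Finset.empty_mem_powerset _⟩

theorem mu_nonneg (D : GD) {x q : ℝ} (hx : 0 < x) (hq : 0 < q) (F : Finset Edg) :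
    0 ≤ D.mu x q F := by
  unfold GD.mu
  exact div_nonneg (wt_pos D hx hq F).le (Zpos D hx hq).le

theorem mu_sum (D : GD) {x q : ℝ} (hx : 0 < x) (hq : 0 < q) :
    ∑ F ∈ D.E.powerset, D.mu x q F = 1 := by
  unfold GD.mu
  rw [← Finset.sum_div, div_self (Zpos D hx hq).ne']

/-! ### Configurations in the rectangle -/

open Classical in
/-- the wired edges of the rectangle -/
noncomputable def WS (D : GD) (S : Finset Edg) : Finset Edg := S.filter (· ∈ D.We)

/-- `A` comes from a configuration of `D` -/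
def Good (D : GD) (S A : Finset Edg) : Prop := WS D S ⊆ A ∧ A \ WS D S ⊆ D.E

theorem mem_WS {D : GD} {S : Finset Edg} {e : Edg} : e ∈ WS D S ↔ e ∈ S ∧ e ∈ D.We := by
  classical
  unfold WS
  rw [Finset.mem_filter]

theorem WS_sub (D : GD) (S : Finset Edg) : WS D S ⊆ S := fun _ h => (mem_WS.1 h).1

theorem disj (D : GD) (S F : Finset Edg) (hF : F ⊆ D.E) : Disjoint F (WS D S) := by
  rw [Finset.disjoint_left]
  intro e he he'
  have h1 := (D.mem_E).1 (hF he)
  exact h1.2.2 (mem_WS.1 he').2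

theorem sdiff_of (D : GD) (S F : Finset Edg) (hF : F ⊆ D.E) : (F ∪ WS D S) \ WS D S = F := by
  rw [Finset.union_sdiff_right]
  exact (Finset.sdiff_eq_self_iff_disjoint).2 (disj D S F hF)

theorem good_of (D : GD) (S F : Finset Edg) (hF : F ⊆ D.E) : Good D S (F ∪ WS D S) := by
  refine ⟨Finset.subset_union_right, ?_⟩
  rw [sdiff_of D S F hF]
  exact hF

/-- sums over the configurations of the rectangle -/
theorem sum_eq (D : GD) (S : Finset Edg) (hS : D.E ⊆ S) (h : Finset Edg → ℝ)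
    (h0 : ∀ A ⊆ S, ¬ Good D S A → h A = 0) :
    ∑ A ∈ S.powerset, h A = ∑ F ∈ D.E.powerset, h (F ∪ WS D S) := by
  classical
  have hinj : ∀ F ∈ D.E.powerset, ∀ F' ∈ D.E.powerset, F ∪ WS D S = F' ∪ WS D S → F = F' := by
    intro F hF F' hF' he
    rw [← sdiff_of D S F (Finset.mem_powerset.1 hF), he, sdiff_of D S F' (Finset.mem_powerset.1 hF')]
  rw [← Finset.sum_image (f := h) (g := fun F => F ∪ WS D S) (s := D.E.powerset)
    (fun F hF F' hF' he => hinj F hF F' hF' he)]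
  symm
  apply Finset.sum_subset
  · intro A hA
    rw [Finset.mem_image] at hA
    obtain ⟨F, hF, rfl⟩ := hA
    rw [Finset.mem_powerset] at hF ⊢
    exact Finset.union_subset (hF.trans hS) (WS_sub D S)
  · intro A hA hA'
    apply h0 A (Finset.mem_powerset.1 hA)
    intro hg
    apply hA'
    rw [Finset.mem_image]
    exact ⟨A \ WS D S, Finset.mem_powerset.2 hg.2, Finset.sdiff_union_of_subset hg.1⟩

open Classical in
/-- the law in the rectangle -/
noncomputable def ff (D : GD) (S : Finset Edg) (x q : ℝ) (A : Finset Edg) : ℝ :=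
  if Good D S A then D.mu x q (A \ WS D S) else 0

theorem ff_nonneg (D : GD) (S : Finset Edg) {x q : ℝ} (hx : 0 < x) (hq : 0 < q)
    (A : Finset Edg) : 0 ≤ ff D S x q A := by
  classical
  unfold ff
  split_ifs
  · exact mu_nonneg D hx hq _
  · exact le_rfl

theorem ff_of (D : GD) (S : Finset Edg) (x q : ℝ) (F : Finset Edg) (hF : F ⊆ D.E) :
    ff D S x q (F ∪ WS D S) = D.mu x q F := by
  classical
  unfold ff
  rw [if_pos (good_of D S F hF), sdiff_of D S F hF]

theorem ff_sum (D : GD) (S : Finset Edg) (hS : D.E ⊆ S) {x q : ℝ} (hx : 0 < x) (hq : 0 < q) :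
    ∑ A ∈ S.powerset, ff D S x q A = 1 := by
  classical
  rw [sum_eq D S hS (ff D S x q) (fun A _ h => by unfold ff; rw [if_neg h]), ← mu_sum D hx hq]
  exact Finset.sum_congr rfl fun F hF => ff_of D S x q F (Finset.mem_powerset.1 hF)

/-- the weights in the rectangle -/
theorem ff_wt (h3 : S_ncl) (D : GD) {l r c d : ℤ} (hl : ∀ y, l ≤ D.w y) (hr : ∀ y, D.z y ≤ r)
    (hc : c ≤ D.lo) (hd : D.hi ≤ d) {x q : ℝ} (hx : 0 < x) (hq : 0 < q) :
    ∃ C : ℝ, 0 < C ∧ ∀ A ⊆ RE l r c d, Good D (RE l r c d) A → ff D (RE l r c d) x q A =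
      C * (x ^ A.card * q ^ kcl (Finset.Icc l r ×ˢ Finset.Icc c d) ↑A) := by
  classical
  obtain ⟨K, hK⟩ := h3 D l r c d hl hr hc hd
  set S := RE l r c d with hS
  have hZ := Zpos D hx hq
  refine ⟨1 / (x ^ (WS D S).card * q ^ K * ∑ G ∈ D.E.powerset, D.wt x q G), by positivity,
    fun A hA hg => ?_⟩
  have e1 : ff D S x q A = D.mu x q (A \ WS D S) := by unfold ff; rw [if_pos hg]
  have e2 : A.card = (A \ WS D S).card + (WS D S).card := by
    rw [Finset.card_sdiff_of_subset hg.1]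
    have := Finset.card_le_card hg.1
    omega
  have e3 : kcl (Finset.Icc l r ×ˢ Finset.Icc c d) ↑A = D.ncl (A \ WS D S) + K := by
    rw [← hK _ hg.2]
    apply congrArg
    ext e
    simp only [Finset.mem_coe, Set.mem_union, Finset.coe_sdiff, Set.mem_sdiff, Set.mem_inter_iff]
    constructor
    · intro h
      by_cases h' : e ∈ WS D S
      · exact Or.inr ⟨(mem_WS.1 h').2, (mem_WS.1 h').1⟩
      · exact Or.inl ⟨h, h'⟩
    · rintro (h | h)
      · exact h.1
      · exact hg.1 (mem_WS.2 ⟨h.2, h.1⟩)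
  rw [e1, e2, e3]
  unfold GD.mu GD.wt
  unfold GD.wt at hZ
  rw [pow_add, pow_add]
  have hx' : x ^ (WS D S).card ≠ 0 := by positivity
  have hq' : q ^ K ≠ 0 := by positivity
  field_simp

theorem We_mono {D D' : GD} (h : D.Le D') : D.We ⊆ D'.We := by
  rintro e ⟨h1, h2⟩
  exact ⟨le_trans h1 (h.w _), le_trans h2 (h.w _)⟩

theorem Z_anti {D D' : GD} (h : D.Le D') {v : Vtx} (hv : v ∉ D.Z) : v ∉ D'.Z := by
  intro h'
  exact hv (le_trans (h.z _) h')

theorem W_notZ (D : GD) {v : Vtx} (hv : v ∈ D.W) : v ∉ D.Z := by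
  intro h'
  have h1 : v.1 ≤ D.w v.2 := hv
  have h2 : D.z v.2 ≤ v.1 := h'
  have := D.lt v.2
  omega

theorem good_notZ {D : GD} {S A : Finset Edg} (hg : Good D S A) {e : Edg} (he : e ∈ A) :
    src e ∉ D.Z ∧ tgt e ∉ D.Z := by
  by_cases h : e ∈ WS D S
  · have := (mem_WS.1 h).2
    exact ⟨W_notZ D this.1, W_notZ D this.2⟩
  · have := D.mem_E.1 (hg.2 (Finset.mem_sdiff.2 ⟨he, h⟩))
    exact ⟨this.1, this.2.1⟩

theorem t_cmp (h1 : S_super) (h2 : S_coup) (h3 : S_ncl) : S_cmp := by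
  classical
  intro D D' hle x q hx hq
  have hq0 : 0 < q := by linarith
  obtain ⟨l, hl⟩ := w_lower D
  obtain ⟨r, hr⟩ := z_upper D'
  set c := min D.lo D'.lo with hc
  set d := max D.hi D'.hi with hd
  set S := RE l r c d with hS
  have hl' : ∀ y, l ≤ D'.w y := fun y => (hl y).trans (hle.w y)
  have hr' : ∀ y, D.z y ≤ r := fun y => (hle.z y).trans (hr y)
  have hES : D.E ⊆ S := E_sub D hl hr' (min_le_left _ _) (le_max_left _ _)
  have hES' : D'.E ⊆ S := E_sub D' hl' hr (min_le_right _ _) (le_max_right _ _)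
  obtain ⟨C, hC, hCf⟩ := ff_wt h3 D hl hr' (min_le_left D.lo D'.lo) (le_max_left D.hi D'.hi) hx hq0
  obtain ⟨C', hC', hCf'⟩ := ff_wt h3 D' hl' hr (min_le_right D.lo D'.lo) (le_max_right D.hi D'.hi)
    hx hq0
  obtain ⟨κ, k0, k1, k2, k3⟩ := h2 S (ff D S x q) (ff D' S x q) (ff_nonneg D S hx hq0)
    (ff_nonneg D' S hx hq0) (ff_sum D S hES hx hq0) (ff_sum D' S hES' hx hq0) (by
      intro A hA B hB
      by_cases hgA : Good D S A
      swap
      · have : ff D S x q A = 0 := by unfold ff; rw [if_neg hgA]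
        rw [this, zero_mul]
        exact mul_nonneg (ff_nonneg D S hx hq0 _) (ff_nonneg D' S hx hq0 _)
      by_cases hgB : Good D' S B
      swap
      · have : ff D' S x q B = 0 := by unfold ff; rw [if_neg hgB]
        rw [this, mul_zero]
        exact mul_nonneg (ff_nonneg D S hx hq0 _) (ff_nonneg D' S hx hq0 _)
      have hWW : WS D S ⊆ WS D' S := fun e he =>
        mem_WS.2 ⟨(mem_WS.1 he).1, We_mono hle (mem_WS.1 he).2⟩
      have g1 : Good D S (A ∩ B) := by
        refine ⟨Finset.subset_inter hgA.1 (hWW.trans hgB.1), ?_⟩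
        exact (Finset.sdiff_subset_sdiff Finset.inter_subset_left le_rfl).trans hgA.2
      have g2 : Good D' S (A ∪ B) := by
        refine ⟨hgB.1.trans Finset.subset_union_right, ?_⟩
        intro e he
        rw [Finset.mem_sdiff, Finset.mem_union] at he
        obtain ⟨he1, he2⟩ := he
        by_cases heB : e ∈ B
        · exact hgB.2 (Finset.mem_sdiff.2 ⟨heB, he2⟩)
        · have heA : e ∈ A := he1.resolve_right heB
          have hz := good_notZ hgA heA
          rw [GD.mem_E]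
          refine ⟨Z_anti hle hz.1, Z_anti hle hz.2, fun hW => ?_⟩
          exact he2 (mem_WS.2 ⟨hA heA, hW⟩)
      rw [hCf A hA hgA, hCf' B hB hgB, hCf (A ∩ B) (Finset.inter_subset_left.trans hA) g1,
        hCf' (A ∪ B) (Finset.union_subset hA hB) g2]
      have hs := h1 (Finset.Icc l r ×ˢ Finset.Icc c d) A B (fun e he => RE_ends (by
        rcases Finset.mem_union.1 he with h | h
        · exact hA h
        · exact hB h))
      have hcard := Finset.card_union_add_card_inter A B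
      set k := kcl (Finset.Icc l r ×ˢ Finset.Icc c d) with hk
      have e1 : C * (x ^ A.card * q ^ k ↑A) * (C' * (x ^ B.card * q ^ k ↑B)) =
          C * C' * x ^ (A.card + B.card) * q ^ (k ↑A + k ↑B) := by
        rw [pow_add, pow_add]; ring
      have e2 : C * (x ^ (A ∩ B).card * q ^ k ↑(A ∩ B)) *
          (C' * (x ^ (A ∪ B).card * q ^ k ↑(A ∪ B))) =
          C * C' * x ^ (A.card + B.card) * q ^ (k ↑(A ∩ B) + k ↑(A ∪ B)) := by
        rw [← hcard, pow_add, pow_add]; ring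
      rw [e1, e2]
      exact mul_le_mul_of_nonneg_left (pow_le_pow_right₀ hq hs) (by positivity))
  have z1 : ∀ A ⊆ S, ¬ Good D S A → ∀ B ⊆ S, κ A B = 0 := by
    intro A hA hg B hB
    have h5 := k1 A hA
    have h6 : ff D S x q A = 0 := by unfold ff; rw [if_neg hg]
    rw [h6, Finset.sum_eq_zero_iff_of_nonneg (fun B _ => k0 A B)] at h5
    exact h5 B (Finset.mem_powerset.2 hB)
  have z2 : ∀ B ⊆ S, ¬ Good D' S B → ∀ A ⊆ S, κ A B = 0 := by
    intro B hB hg A hA
    have h5 := k2 B hB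
    have h6 : ff D' S x q B = 0 := by unfold ff; rw [if_neg hg]
    rw [h6, Finset.sum_eq_zero_iff_of_nonneg (fun A _ => k0 A B)] at h5
    exact h5 A (Finset.mem_powerset.2 hA)
  have sub1 : ∀ F ⊆ D.E, F ∪ WS D S ⊆ S := fun F hF =>
    Finset.union_subset (hF.trans hES) (WS_sub D S)
  have sub2 : ∀ F ⊆ D'.E, F ∪ WS D' S ⊆ S := fun F hF =>
    Finset.union_subset (hF.trans hES') (WS_sub D' S)
  refine ⟨fun F F' => κ (F ∪ WS D S) (F' ∪ WS D' S), ⟨fun F F' => k0 _ _, ?_, ?_⟩, ?_⟩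
  · intro F hF
    rw [← ff_of D S x q F hF, ← k1 _ (sub1 F hF)]
    exact (sum_eq D' S hES' (fun B => κ (F ∪ WS D S) B)
      (fun B hB hg => z2 B hB hg _ (sub1 F hF))).symm
  · intro F' hF'
    rw [← ff_of D' S x q F' hF', ← k2 _ (sub2 F' hF')]
    exact (sum_eq D S hES (fun A => κ A (F' ∪ WS D' S))
      (fun A hA hg => z1 A hA hg _ (sub2 F' hF'))).symm
  · intro F hF F' hF' hne e he
    have hsub := k3 _ (sub1 F hF) _ (sub2 F' hF') hne
    rcases he with he | he
    · rcases Finset.mem_union.1 (hsub (Finset.mem_union_left _ he)) with h | h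
      · exact Or.inl h
      · exact Or.inr (mem_WS.1 h).2
    · exact Or.inr (We_mono hle he)

end Pool.Agent.H975.FK

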