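
import Pool.Agent.H950.FK.Cl

/-!
T1: the number of clusters is a supermodular function of the set of edges.
-/

set_option autoImplicit false

namespace Pool.Agent.H550.FK

open H974 Pool.Agent.H950.FK

/-- the cluster of a vertex -/
def clu (A : Set Edg) (v : Vtx) : Set Vtx := {u | Reach A v u}

theorem clu_eq {A : Set Edg} {v u : Vtx} (h : Reach A v u) : clu A v = clu A u := by
  ext w
  exact ⟨fun hw => h.symm.trans hw, fun hw => h.trans hw⟩

theorem reach_of_clu {A : Set Edg} {v u : Vtx} (h : clu A v = clu A u) : Reach A v u := by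
  have h1 : u ∈ clu A u := Reach.refl A u
  rw [← h] at h1
  exact h1

/-- the clusters -/
def Cl (V0 : Finset Vtx) (A : Set Edg) : Set (Set Vtx) := {K | ∃ v ∈ V0, K = clu A v}

theorem Cl_finite (V0 : Finset Vtx) (A : Set Edg) : (Cl V0 A).Finite := by
  apply (V0.finite_toSet.image (clu A)).subset
  rintro K ⟨v, hv, rfl⟩
  exact ⟨v, hv, rfl⟩

/-- the functions with equal values at the ends of the edges of `A` -/
def SA (V0 : Finset Vtx) (A : Set Edg) : Submodule ℝ (V0 → ℝ) where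
  carrier := {f | ∀ e ∈ A, ∀ (h1 : src e ∈ V0) (h2 : tgt e ∈ V0), f ⟨src e, h1⟩ = f ⟨tgt e, h2⟩}
  add_mem' := by
    intro f g hf hg e he h1 h2
    rw [Pi.add_apply, Pi.add_apply, hf e he h1 h2, hg e he h1 h2]
  zero_mem' := fun e _ _ _ => rfl
  smul_mem' := by
    intro c f hf e he h1 h2
    rw [Pi.smul_apply, Pi.smul_apply, hf e he h1 h2]

theorem const (V0 : Finset Vtx) (A : Set Edg) (hA : ∀ e ∈ A, src e ∈ V0 ∧ tgt e ∈ V0)
    (f : V0 → ℝ) (hf : f ∈ SA V0 A) (v u : Vtx) (hv : v ∈ V0) (h : Reach A v u) :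
    ∃ hu : u ∈ V0, f ⟨u, hu⟩ = f ⟨v, hv⟩ := by
  induction h with
  | refl => exact ⟨hv, rfl⟩
  | tail _ hadj ih =>
    obtain ⟨hu, hfu⟩ := ih
    obtain ⟨e, he, hor⟩ := hadj
    have hs := hA e he
    have hfe := hf e he hs.1 hs.2
    rcases hor with ⟨h1, h2⟩ | ⟨h1, h2⟩
    · subst h1
      subst h2
      exact ⟨hs.2, hfe.symm.trans hfu⟩
    · subst h1
      subst h2
      exact ⟨hs.1, hfe.trans hfu⟩

/-- functions on the clusters as functions on the vertices -/
noncomputable def phi (V0 : Finset Vtx) (A : Set Edg) : (Cl V0 A → ℝ) →ₗ[ℝ] SA V0 A where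
  toFun g := ⟨fun v => g ⟨clu A v.1, ⟨v.1, v.2, rfl⟩⟩, by
    intro e he h1 h2
    have h3 : Reach A (src e) (tgt e) := Adj.reach ⟨e, he, Or.inl ⟨rfl, rfl⟩⟩
    exact congrArg g (Subtype.ext (clu_eq h3))⟩
  map_add' g g' := rfl
  map_smul' c g := rfl

theorem phi_bij (V0 : Finset Vtx) (A : Set Edg) (hA : ∀ e ∈ A, src e ∈ V0 ∧ tgt e ∈ V0) :
    Function.Bijective (phi V0 A) := by
  constructor
  · intro g g' h
    funext K
    obtain ⟨K, v, hv, rfl⟩ := K
    exact congrFun (congrArg Subtype.val h) ⟨v, hv⟩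
  · rintro ⟨f, hf⟩
    have hch : ∀ K : Cl V0 A, ∃ v : V0, K.1 = clu A v.1 := by
      rintro ⟨K, v, hv, rfl⟩
      exact ⟨⟨v, hv⟩, rfl⟩
    choose w hw using hch
    refine ⟨fun K => f (w K), ?_⟩
    apply Subtype.ext
    funext v
    have h1 := hw ⟨clu A v.1, ⟨v.1, v.2, rfl⟩⟩
    obtain ⟨hu, hfu⟩ := const V0 A hA f hf v.1 _ v.2 (reach_of_clu h1)
    exact hfu

theorem finrank_SA (V0 : Finset Vtx) (A : Set Edg) (hA : ∀ e ∈ A, src e ∈ V0 ∧ tgt e ∈ V0) :
    Module.finrank ℝ (SA V0 A) = kcl V0 A := by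
  have hfin := (Cl_finite V0 A).fintype
  rw [← (LinearEquiv.ofBijective (phi V0 A) (phi_bij V0 A hA)).finrank_eq,
    Module.finrank_fintype_fun_eq_card]
  have h1 : kcl V0 A = (Cl V0 A).ncard := rfl
  rw [h1, ← Nat.card_coe_set_eq, Nat.card_eq_fintype_card]

theorem t_super : Pool.Agent.H950.FK.S_super := by
  intro V0 A B hAB
  have hA : ∀ e ∈ (↑A : Set Edg), src e ∈ V0 ∧ tgt e ∈ V0 := fun e he =>
    hAB e (Finset.mem_union_left _ he)
  have hB : ∀ e ∈ (↑B : Set Edg), src e ∈ V0 ∧ tgt e ∈ V0 := fun e he =>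
    hAB e (Finset.mem_union_right _ he)
  have hI : ∀ e ∈ (↑(A ∩ B) : Set Edg), src e ∈ V0 ∧ tgt e ∈ V0 := fun e he =>
    hA e (Finset.mem_of_mem_inter_left he)
  have hU : ∀ e ∈ (↑(A ∪ B) : Set Edg), src e ∈ V0 ∧ tgt e ∈ V0 := fun e he => hAB e he
  rw [← finrank_SA V0 _ hA, ← finrank_SA V0 _ hB, ← finrank_SA V0 _ hI, ← finrank_SA V0 _ hU,
    ← Submodule.finrank_sup_add_finrank_inf_eq]
  apply Nat.add_le_add
  · apply Submodule.finrank_mono
    rw [sup_le_iff]
    constructor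
    · intro f hf e he
      exact hf e (Finset.mem_of_mem_inter_left he)
    · intro f hf e he
      exact hf e (Finset.mem_of_mem_inter_right he)
  · apply Submodule.finrank_mono
    intro f hf e he
    rcases Finset.mem_union.1 he with h | h
    · exact hf.1 e h
    · exact hf.2 e h

end Pool.Agent.H550.FK

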